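import Pool.Agent.SeedPA.Sep
import Pool.Agent.SeedPA.NoHub

/-!
# Seed distinguishability in sublinear preferential attachment trees

For every attachment exponent `α` in `(0, 1)`, any two non-isomorphic seed trees with at least
three vertices are distinguishable.
-/

open Filter

namespace Pool.Agent.Results.MP_0bba14_pr.Distinguishable

open SeedPA

/-- For `0 < α < 1` and non-isomorphic finite trees `S`, `T` with at least three vertices each, the
total variation distance of `PA_α(n, S)` and `PA_α(n, T)` converges to a positive number. -/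
theorem result (α : ℝ) (h0 : 0 < α) (h1 : α < 1) (S T : FG)
    (hS : S.2.IsTree) (hT : T.2.IsTree) (hS3 : 3 ≤ S.1) (hT3 : 3 ≤ T.1)
    (hST : ¬ Nonempty (S.2 ≃g T.2)) :
    ∃ δ : ℝ, 0 < δ ∧ Tendsto (fun n => dTV (PA α n S) (PA α n T)) atTop (nhds δ) :=
  seeds_distinguishable h0 (sepProp h0 h1) S T hS hT hS3 hT3 hST

end Pool.Agent.Results.MP_0bba14_pr.Distinguishable
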